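import Pool.Agent.K1H19.SQ.QeB

set_option autoImplicit false

namespace Pool.Agent.K1H19.SQ

open Finset Pool.Agent.K1H35.SH

theorem one (hL : S_LCC) {n d h M k0 k k2 K L : ℕ} (g : Fin k2 → Fin d → Fin n × Fin n)
    (δ : Fin K → Fin n × Fin n) (hC : Cond h M g) (hk : k2 ≤ k0) (hkk : k2 ≤ k) (hk1 : 1 ≤ k)
    (hk2 : 1 ≤ k2)
    (hd : 64 ≤ d) (hdn : 64 * d ≤ n) (hnL : n ≤ 2 ^ L)
    (hM : 4 * k0 * M ^ 2 ≤ h * d) (hL1 : 1 ≤ L)
    (hbig : 2 ^ 15 * L * n * k ≤ k2 * h * d) :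
    cnt n d (fun G => QL d G ∧ Ev g δ G) * 2 ^ (3 * L + 8 * L * d * k) ≤ (reg n d).card := by
  classical
  by_cases hcase : 16 * d * k2 ≤ n
  · -- case A
    set U : Finset (Fin n) := (univ : Finset (Fin k2 × Fin d)).image (fun p => (g p.1 p.2).1) ∪
      (univ : Finset (Fin k2 × Fin d)).image (fun p => (g p.1 p.2).2) with hUdef
    have hU : ∀ i a, (g i a).1 ∈ U ∧ (g i a).2 ∈ U := by
      intro i a
      rw [hUdef, Finset.mem_union, Finset.mem_union]
      exact ⟨Or.inl (Finset.mem_image.2 ⟨(i, a), Finset.mem_univ _, rfl⟩),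
        Or.inr (Finset.mem_image.2 ⟨(i, a), Finset.mem_univ _, rfl⟩)⟩
    have hUup : U.card ≤ 2 * (d * k2) := by
      have h1 : ((univ : Finset (Fin k2 × Fin d)).image (fun p => (g p.1 p.2).1)).card ≤ k2 * d := by
        refine Finset.card_image_le.trans ?_
        simp
      have h2 : ((univ : Finset (Fin k2 × Fin d)).image (fun p => (g p.1 p.2).2)).card ≤ k2 * d := by
        refine Finset.card_image_le.trans ?_
        simp
      calc U.card ≤ _ := Finset.card_union_le _ _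
        _ ≤ k2 * d + k2 * d := by omega
        _ = 2 * (d * k2) := by ring
    have hUlow : d ≤ U.card := by
      have h1 : ((univ : Finset (Fin d)).image (fun a => (g ⟨0, hk2⟩ a).1)).card = d := by
        rw [Finset.card_image_of_injective _ (hC.ix ⟨0, hk2⟩)]
        simp
      calc d = _ := h1.symm
        _ ≤ U.card := by
          refine Finset.card_le_card ?_
          intro p hp
          obtain ⟨a, _, rfl⟩ := Finset.mem_image.1 hp
          exact (hU _ _).1
    have hUn : U.card ≤ n := by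
      have := Finset.card_le_univ U
      simpa using this
    have h10 : 0 < 10 * n := by omega
    refine use hL g δ hC hk hkk hk1 hd hdn hM hL1 hbig U hU (by omega) ?_
      ((d * U.card ^ 2 + (10 * n - 1)) / (10 * n)) ?_ ?_
    · calc U.card ^ (U.card + 4) ≤ n ^ (U.card + 4) := Nat.pow_le_pow_left hUn _
        _ ≤ n ^ (16 * d * k + 4) := by
          refine Nat.pow_le_pow_right (by omega) ?_
          have : 2 * (d * k2) ≤ 16 * d * k := by
            calc 2 * (d * k2) ≤ 16 * (d * k) := by gcongr; norm_num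
              _ = 16 * d * k := by ring
          omega
        _ ≤ (2 ^ L) ^ (16 * d * k + 4) := Nat.pow_le_pow_left hnL _
        _ = 2 ^ (L * (16 * d * k + 4)) := by rw [← pow_mul]
    · have h1 := Nat.div_add_mod (d * U.card ^ 2 + (10 * n - 1)) (10 * n)
      have h2 := Nat.mod_lt (d * U.card ^ 2 + (10 * n - 1)) h10
      omega
    · intro G _ hQ
      have h1 : 8 * U.card ≤ n := by
        calc 8 * U.card ≤ 8 * (2 * (d * k2)) := Nat.mul_le_mul_left _ hUup
          _ = 16 * d * k2 := by ring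
          _ ≤ n := hcase
      have h2 := hQ U hUlow h1
      refine ⟨?_, h2.2⟩
      have h3 : (d * U.card ^ 2 + (10 * n - 1)) < 10 * n * (E2 G U + 1) := by
        have h4 : 10 * n * (E2 G U + 1) = 10 * n * E2 G U + 10 * n := by ring
        omega
      exact Nat.lt_succ_iff.1 (Nat.div_lt_of_lt_mul h3)
  · -- case B
    have hcu : (univ : Finset (Fin n)).card = n := by simp
    refine use hL g δ hC hk hkk hk1 hd hdn hM hL1 hbig univ
      (fun i a => ⟨Finset.mem_univ _, Finset.mem_univ _⟩) (by rw [hcu]; omega) ?_ (n * d) ?_ ?_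
    · rw [hcu]
      calc n ^ (n + 4) ≤ n ^ (16 * d * k + 4) := by
            refine Nat.pow_le_pow_right (by omega) ?_
            have : 16 * d * k2 ≤ 16 * d * k := Nat.mul_le_mul_left _ hkk
            omega
        _ ≤ (2 ^ L) ^ (16 * d * k + 4) := Nat.pow_le_pow_left hnL _
        _ = 2 ^ (L * (16 * d * k + 4)) := by rw [← pow_mul]
    · rw [hcu]
      calc d * n ^ 2 = 1 * (d * n ^ 2) := by ring
        _ ≤ 10 * (d * n ^ 2) := Nat.mul_le_mul_right _ (by norm_num)
        _ = 10 * n * (n * d) := by ring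
    · intro G hG _
      rw [E2_univ hG, hcu]
      refine ⟨le_rfl, ?_⟩
      calc 2 * (n * d) = n * (2 * d) := by ring
        _ ≤ n * (n - 1) := Nat.mul_le_mul_left _ (by omega)

/-- every finset of at most `K` elements is enumerated, up to diagonal elements -/
theorem enum {n K : ℕ} (hn : 0 < n) (Δ : Finset (Sym2 (Fin n))) (hK : Δ.card ≤ K) :
    ∃ δ : Fin K → Fin n × Fin n, ∀ e : Sym2 (Fin n), ¬ e.IsDiag →
      ((∃ j, s((δ j).1, (δ j).2) = e) ↔ e ∈ Δ) := by
  classical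
  let e0 : Sym2 (Fin n) := s(⟨0, hn⟩, ⟨0, hn⟩)
  let F : Fin K → Sym2 (Fin n) := fun j =>
    if hj : (j : ℕ) < Δ.card then ((Δ.equivFin).symm ⟨j, hj⟩ : Sym2 (Fin n)) else e0
  have hF : ∀ e : Sym2 (Fin n), ¬ e.IsDiag → ((∃ j, F j = e) ↔ e ∈ Δ) := by
    intro e he
    constructor
    · rintro ⟨j, hj⟩
      by_cases h1 : (j : ℕ) < Δ.card
      · simp only [F] at hj
        rw [dif_pos h1] at hj
        rw [← hj]
        exact Finset.coe_mem _
      · simp only [F] at hj
        rw [dif_neg h1] at hj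
        exfalso
        apply he
        rw [← hj]
        simp [e0]
    · intro h1
      have h2 := (Δ.equivFin ⟨e, h1⟩).2
      refine ⟨⟨(Δ.equivFin ⟨e, h1⟩ : Fin Δ.card), lt_of_lt_of_le h2 hK⟩, ?_⟩
      simp only [F]
      rw [dif_pos h2]
      simp
  refine ⟨fun j => Quot.out (F j), ?_⟩
  intro e he
  rw [← hF e he]
  have h3 : ∀ j, s((Quot.out (F j)).1, (Quot.out (F j)).2) = F j := by
    intro j
    exact Quot.out_eq (F j)
  simp only [h3]

/-- the data from a heavy configuration -/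
theorem data {n d h k M k2 : ℕ} (hn : 0 < n) (hk : k2 ≤ k) {G : SimpleGraph (Fin n)}
    (hG : G ∈ reg n d) (hcod : ∀ u v, u ≠ v → codeg G u v ≤ M) (hH : Heavy d h k G) :
    ∃ (g : Fin k2 → Fin d → Fin n × Fin n) (δ : Fin (3 * d * k) → Fin n × Fin n),
      Cond h M g ∧ Ev g δ G := by
  classical
  obtain ⟨Z, f, Δ, hZ, hΔ, hm, hadj⟩ := hH
  obtain ⟨δ, hδ⟩ := enum hn Δ hΔ
  have hcard : ∀ v, (nb G v).card = d := mem_reg G |>.1 hG
  have hemb : Nonempty (Fin k2 ↪ Z) := by
    refine Function.Embedding.nonempty_of_card_le ?_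
    rw [Fintype.card_fin, Fintype.card_coe, hZ]
    exact hk
  obtain ⟨ζ⟩ := hemb
  let z : Fin k2 → Fin n := fun i => (ζ i : Fin n)
  have hz : ∀ i, z i ∈ Z := fun i => (ζ i).2
  have hzinj : ∀ i j, i ≠ j → z i ≠ z j := by
    intro i j hij h1
    exact hij (ζ.injective (Subtype.ext h1))
  let E : ∀ i, nb G (z i) ≃ Fin d := fun i => (nb G (z i)).equivFinOfCardEq (hcard (z i))
  let x : Fin k2 → Fin d → Fin n := fun i a => ((E i).symm a : Fin n)
  have hx : ∀ i a, x i a ∈ nb G (z i) := fun i a => ((E i).symm a).2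
  have hxinj : ∀ i, Function.Injective (x i) := by
    intro i a b hab
    exact (E i).symm.injective (Subtype.ext hab)
  have hxsurj : ∀ i p, p ∈ nb G (z i) → ∃ a, x i a = p := by
    intro i p hp
    refine ⟨E i ⟨p, hp⟩, ?_⟩
    simp [x]
  refine ⟨fun i a => (x i a, f (z i) (x i a)), δ, ⟨?_, ?_, ?_, ?_⟩, ?_⟩
  · intro i
    exact hxinj i
  · intro i a b hab
    exact hxinj i ((hm (z i) (hz i)).1 (hx i a) (hx i b) hab)
  · intro i
    have h1 := (hm (z i) (hz i)).2
    refine lt_of_lt_of_le h1 ?_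
    refine Nat.mul_le_mul_left _ ?_
    have h2 : ({p ∈ (nb G (z i) : Finset (Fin n)) | f (z i) p ≠ p} : Set (Fin n)) ⊆
        (x i) '' {a | x i a ≠ f (z i) (x i a)} := by
      rintro p ⟨hp1, hp2⟩
      obtain ⟨a, rfl⟩ := hxsurj i p hp1
      exact ⟨a, fun h3 => hp2 h3.symm, rfl⟩
    calc _ ≤ ((x i) '' {a | x i a ≠ f (z i) (x i a)}).ncard := Set.ncard_le_ncard h2 (Set.toFinite _)
      _ ≤ _ := Set.ncard_image_le (Set.toFinite _)
  · intro i j hij
    have h1 := hcod (z i) (z j) (hzinj i j hij)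
    refine le_trans ?_ h1
    unfold codeg
    rw [← Set.ncard_coe_finset]
    refine Set.ncard_le_ncard ?_ (Set.toFinite _)
    rintro p ⟨⟨a, ha⟩, ⟨b, hb⟩⟩
    simp only at ha hb
    rw [Finset.mem_coe, Finset.mem_inter]
    exact ⟨ha ▸ hx i a, hb ▸ hx j b⟩
  · intro i a b hab
    have h1 : x i a ≠ x i b := fun h2 => hab (hxinj i h2)
    have h2 := hadj (z i) (hz i) (x i a) (hx i a) (x i b) (hx i b) h1
    have h3 : f (z i) (x i a) ≠ f (z i) (x i b) := by
      intro h4
      exact h1 ((hm (z i) (hz i)).1 (hx i a) (hx i b) h4)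
    have h4 := hδ s(f (z i) (x i a), f (z i) (x i b)) (by rw [Sym2.mk_isDiag_iff]; exact h3)
    simp only
    rw [h2, h4]

theorem cnt_card {n d : ℕ} (P : SimpleGraph (Fin n) → Prop) [DecidablePred P] :
    cnt n d P = ((reg n d).filter P).card := by
  unfold cnt
  congr

theorem cnt_zero {n d : ℕ} (P : SimpleGraph (Fin n) → Prop) (h : ∀ G, ¬ P G) :
    cnt n d P = 0 := by
  classical
  rw [cnt_card, Finset.card_eq_zero, Finset.filter_eq_empty_iff]
  intro G _ hG
  exact h G hG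

theorem cnt_sum {n d : ℕ} {ι : Type} [Fintype ι] (P : SimpleGraph (Fin n) → Prop)
    (Q : ι → SimpleGraph (Fin n) → Prop) (h : ∀ G ∈ reg n d, P G → ∃ w, Q w G) :
    cnt n d P ≤ ∑ w, cnt n d (Q w) := by
  classical
  have h1 : ∀ w, cnt n d (Q w) = ((reg n d).filter (Q w)).card := fun w => cnt_card _
  rw [Finset.sum_congr rfl (fun w _ => h1 w), cnt_card]
  refine le_trans ?_ (Finset.card_biUnion_le (s := (univ : Finset ι))
    (t := fun w => (reg n d).filter (Q w)))
  refine Finset.card_le_card ?_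
  intro G hG
  rw [Finset.mem_filter] at hG
  obtain ⟨w, hw⟩ := h G hG.1 hG.2
  rw [Finset.mem_biUnion]
  exact ⟨w, Finset.mem_univ _, Finset.mem_filter.2 ⟨hG.1, hw⟩⟩

theorem t_QE (hL : S_LCC) : S_QE := by
  classical
  intro n d h k M k0 km L hnL hL1 hdn hd hk1 hkkm hk01 hM hA hB
  have hn : 0 < n := by omega
  set k2 : ℕ := min k k0 with hk2
  have hk2k : k2 ≤ k := min_le_left _ _
  have hk2k0 : k2 ≤ k0 := min_le_right _ _
  have hk21 : 1 ≤ k2 := le_min hk1 hk01
  have hbig : 2 ^ 15 * L * n * k ≤ k2 * h * d := by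
    rcases min_choice k k0 with h1 | h1
    · rw [← hk2] at h1
      rw [h1]
      calc 2 ^ 15 * L * n * k ≤ h * d * k := Nat.mul_le_mul_right _ hA
        _ = k * h * d := by ring
    · rw [← hk2] at h1
      rw [h1]
      calc 2 ^ 15 * L * n * k ≤ 2 ^ 15 * L * n * km := Nat.mul_le_mul_left _ hkkm
        _ ≤ k0 * h * d := hB
  set E : ℕ := 3 * L + 8 * L * d * k with hE
  -- the union bound
  let Dat := (Fin k2 → Fin d → Fin n × Fin n) × (Fin (3 * d * k) → Fin n × Fin n)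
  have hsub : cnt n d (fun G => (∀ u v, u ≠ v → codeg G u v ≤ M) ∧ QL d G ∧ Heavy d h k G) ≤
      ∑ w : Dat, cnt n d (fun G => Cond h M w.1 ∧ QL d G ∧ Ev w.1 w.2 G) := by
    refine cnt_sum _ (fun (w : Dat) G => Cond h M w.1 ∧ QL d G ∧ Ev w.1 w.2 G) ?_
    intro G hG hP
    obtain ⟨g, δ, h1, h2⟩ := data (k2 := k2) hn hk2k hG hP.1 hP.2.2
    exact ⟨(g, δ), h1, hP.2.1, h2⟩
  have hone : ∀ w : Dat, cnt n d (fun G => Cond h M w.1 ∧ QL d G ∧ Ev w.1 w.2 G) * 2 ^ E ≤
      (reg n d).card := by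
    intro w
    by_cases hC : Cond h M w.1
    · refine le_trans ?_ (one hL w.1 w.2 hC hk2k0 hk2k hk1 hk21 hd hdn hnL hM hL1 hbig)
      refine Nat.mul_le_mul_right _ (cnt_mono ?_)
      intro G _ hG
      exact hG.2
    · have h1 : cnt n d (fun G => Cond h M w.1 ∧ QL d G ∧ Ev w.1 w.2 G) = 0 :=
        cnt_zero _ (fun G hG => hC hG.1)
      rw [h1]
      simp
  have hcardD : Fintype.card Dat ≤ 2 ^ (8 * L * d * k) := by
    have h1 : Fintype.card Dat = (((n * n) ^ d) ^ k2) * ((n * n) ^ (3 * d * k)) := by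
      simp [Dat]
    rw [h1, ← pow_mul, ← pow_add]
    calc (n * n) ^ (d * k2 + 3 * d * k) ≤ (n * n) ^ (4 * d * k) := by
          refine Nat.pow_le_pow_right (by positivity) ?_
          have : d * k2 ≤ d * k := Nat.mul_le_mul_left _ hk2k
          have h2 : 3 * d * k = 3 * (d * k) := by ring
          have h3 : 4 * d * k = 4 * (d * k) := by ring
          omega
      _ ≤ (2 ^ L * 2 ^ L) ^ (4 * d * k) := Nat.pow_le_pow_left (Nat.mul_le_mul hnL hnL) _
      _ = 2 ^ (8 * L * d * k) := by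
        rw [← pow_add, ← pow_mul]
        congr 1
        ring
  have hn3 : n ^ 3 ≤ 2 ^ (3 * L) := by
    calc n ^ 3 ≤ (2 ^ L) ^ 3 := Nat.pow_le_pow_left hnL _
      _ = 2 ^ (3 * L) := by rw [← pow_mul]; congr 1; ring
  have hsum : (∑ w : Dat, cnt n d (fun G => Cond h M w.1 ∧ QL d G ∧ Ev w.1 w.2 G)) * 2 ^ E ≤
      2 ^ (8 * L * d * k) * (reg n d).card := by
    rw [Finset.sum_mul]
    calc _ ≤ ∑ _w : Dat, (reg n d).card := Finset.sum_le_sum (fun w _ => hone w)
      _ = Fintype.card Dat * (reg n d).card := by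
        rw [Finset.sum_const, smul_eq_mul, Finset.card_univ]
      _ ≤ _ := Nat.mul_le_mul_right _ hcardD
  have hpos : 0 < 2 ^ E := by positivity
  refine le_of_mul_le_mul_left ?_ hpos
  calc 2 ^ E * (cnt n d (fun G => (∀ u v, u ≠ v → codeg G u v ≤ M) ∧ QL d G ∧ Heavy d h k G) *
        n ^ 3) ≤ 2 ^ E * ((∑ w : Dat, cnt n d (fun G => Cond h M w.1 ∧ QL d G ∧ Ev w.1 w.2 G)) *
        n ^ 3) := Nat.mul_le_mul_left _ (Nat.mul_le_mul_right _ hsub)
    _ = ((∑ w : Dat, cnt n d (fun G => Cond h M w.1 ∧ QL d G ∧ Ev w.1 w.2 G)) * 2 ^ E) *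
        n ^ 3 := by ring
    _ ≤ (2 ^ (8 * L * d * k) * (reg n d).card) * 2 ^ (3 * L) := Nat.mul_le_mul hsum hn3
    _ = 2 ^ E * (reg n d).card := by rw [hE, pow_add]; ring

end Pool.Agent.K1H19.SQ

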