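import Pool.Agent.K1H35.SH.Stm2
import Pool.Agent.K1H35.SH.Fin

set_option autoImplicit false

namespace Pool.Agent.K1H19.SQ

open Finset Pool.Agent.K1H35.SH

/-- ordered pairs with a moved pair -/
theorem card_O {n d : ℕ} (x y : Fin d → Fin n) (hx : Function.Injective x)
    (m : ℕ) (hm : m ≤ (univ.filter (fun a => x a ≠ y a)).card) :
    m * (d - 2) ≤ (univ.filter (fun p : Fin d × Fin d =>
      p.1 ≠ p.2 ∧ s(y p.1, y p.2) ≠ s(x p.1, x p.2))).card := by
  classical
  have h1 : (univ.filter (fun p : Fin d × Fin d =>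
      p.1 ≠ p.2 ∧ s(y p.1, y p.2) ≠ s(x p.1, x p.2))).card =
      ∑ a : Fin d, (univ.filter (fun b : Fin d => a ≠ b ∧ s(y a, y b) ≠ s(x a, x b))).card := by
    rw [Finset.card_filter, ← Finset.univ_product_univ, Finset.sum_product]
    refine Finset.sum_congr rfl ?_
    intro a _
    rw [Finset.card_filter]
  rw [h1]
  have h2 : ∀ a ∈ univ.filter (fun a => x a ≠ y a),
      d - 2 ≤ (univ.filter (fun b : Fin d => a ≠ b ∧ s(y a, y b) ≠ s(x a, x b))).card := by
    intro a ha
    rw [Finset.mem_filter] at ha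
    have h3 : (univ.filter (fun b : Fin d => ¬ (a ≠ b ∧ s(y a, y b) ≠ s(x a, x b)))).card ≤ 2 := by
      have h4 : univ.filter (fun b : Fin d => ¬ (a ≠ b ∧ s(y a, y b) ≠ s(x a, x b))) ⊆
          {a} ∪ univ.filter (fun b : Fin d => x b = y a) := by
        intro b hb
        rw [Finset.mem_filter] at hb
        rw [Finset.mem_union, Finset.mem_singleton, Finset.mem_filter]
        by_cases hab : a = b
        · exact Or.inl hab.symm
        · right
          refine ⟨Finset.mem_univ _, ?_⟩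
          have h5 : s(y a, y b) = s(x a, x b) := by
            by_contra h6
            exact hb.2 ⟨hab, h6⟩
          rw [Sym2.eq_iff] at h5
          rcases h5 with h5 | h5
          · exact absurd h5.1.symm ha.2
          · exact h5.1.symm
      have h7 : (univ.filter (fun b : Fin d => x b = y a)).card ≤ 1 := by
        rw [Finset.card_le_one]
        intro b hb c hc
        rw [Finset.mem_filter] at hb hc
        exact hx (hb.2.trans hc.2.symm)
      calc _ ≤ ({a} ∪ univ.filter (fun b : Fin d => x b = y a)).card := Finset.card_le_card h4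
        _ ≤ ({a} : Finset (Fin d)).card + (univ.filter (fun b : Fin d => x b = y a)).card :=
            Finset.card_union_le _ _
        _ ≤ 1 + 1 := by rw [Finset.card_singleton]; omega
        _ = 2 := rfl
    have h8 := Finset.card_filter_add_card_filter_not (s := (univ : Finset (Fin d)))
      (fun b : Fin d => a ≠ b ∧ s(y a, y b) ≠ s(x a, x b))
    rw [Finset.card_univ, Fintype.card_fin] at h8
    omega
  calc m * (d - 2) ≤ (univ.filter (fun a => x a ≠ y a)).card * (d - 2) :=
        Nat.mul_le_mul_right _ hm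
    _ = ∑ a ∈ univ.filter (fun a => x a ≠ y a), (d - 2) := by rw [Finset.sum_const, smul_eq_mul]
    _ ≤ ∑ a ∈ univ.filter (fun a => x a ≠ y a),
        (univ.filter (fun b : Fin d => a ≠ b ∧ s(y a, y b) ≠ s(x a, x b))).card :=
        Finset.sum_le_sum h2
    _ ≤ _ := Finset.sum_le_sum_of_subset (Finset.filter_subset _ _)

/-- union bound from below -/
theorem biUnion_lower {ι β : Type} [DecidableEq ι] [DecidableEq β] (B : ι → Finset β) (c M2 : ℕ)
    (hc : ∀ i, c ≤ (B i).card) (hM : ∀ i j, i ≠ j → (B i ∩ B j).card ≤ M2) (s : Finset ι) :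
    s.card * c ≤ (s.biUnion B).card + s.card ^ 2 * M2 := by
  classical
  induction s using Finset.induction_on with
  | empty => simp
  | insert a s ha ih =>
    rw [Finset.card_insert_of_notMem ha, Finset.biUnion_insert]
    have h1 := Finset.card_union_add_card_inter (B a) (s.biUnion B)
    have h2 : (B a ∩ s.biUnion B).card ≤ s.card * M2 := by
      rw [Finset.inter_biUnion]
      refine Finset.card_biUnion_le_card_mul _ _ _ ?_
      intro i hi
      exact hM a i (fun h => ha (h ▸ hi))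
    have h3 := hc a
    have h4 : (s.card + 1) ^ 2 * M2 = s.card ^ 2 * M2 + 2 * (s.card * M2) + M2 := by ring
    have h5 : (s.card + 1) * c = s.card * c + c := by ring
    rw [h4, h5]
    have h6 : 0 ≤ s.card * M2 := Nat.zero_le _
    omega

/-- unordered pairs -/
theorem card_sym {n : ℕ} (S : Finset (Fin n × Fin n)) (D : Finset (Sym2 (Fin n)))
    (h : ∀ p ∈ S, s(p.1, p.2) ∈ D) : S.card ≤ 2 * D.card := by
  classical
  have h1 : S.card ≤ 2 * (S.image (fun p : Fin n × Fin n => s(p.1, p.2))).card := by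
    refine Finset.card_le_mul_card_image S 2 ?_
    intro e _
    induction e using Sym2.ind with
    | _ u v =>
      have h2 : S.filter (fun p : Fin n × Fin n => s(p.1, p.2) = s(u, v)) ⊆
          {(u, v), (v, u)} := by
        intro p hp
        rw [Finset.mem_filter, Sym2.eq_iff] at hp
        rw [Finset.mem_insert, Finset.mem_singleton]
        rcases hp.2 with h3 | h3
        · exact Or.inl (Prod.ext h3.1 h3.2)
        · exact Or.inr (Prod.ext h3.1 h3.2)
      exact (Finset.card_le_card h2).trans Finset.card_le_two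
  have h2 : (S.image (fun p : Fin n × Fin n => s(p.1, p.2))).card ≤ D.card := by
    refine Finset.card_le_card ?_
    intro e he
    obtain ⟨p, hp, rfl⟩ := Finset.mem_image.1 he
    exact h p hp
  omega

/-- the pairs of the data -/
noncomputable def DD {n k2 d : ℕ} (g : Fin k2 → Fin d → Fin n × Fin n) : Finset (Sym2 (Fin n)) := by
  classical exact univ.filter (fun e => ∃ p : Fin k2 × Fin d × Fin d, p.2.1 ≠ p.2.2 ∧
    e = s((g p.1 p.2.1).1, (g p.1 p.2.2).1) ∧ s((g p.1 p.2.1).2, (g p.1 p.2.2).2) ≠ e)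

theorem mem_DD {n k2 d : ℕ} (g : Fin k2 → Fin d → Fin n × Fin n) (e : Sym2 (Fin n)) :
    e ∈ DD g ↔ ∃ p : Fin k2 × Fin d × Fin d, p.2.1 ≠ p.2.2 ∧
    e = s((g p.1 p.2.1).1, (g p.1 p.2.2).1) ∧ s((g p.1 p.2.1).2, (g p.1 p.2.2).2) ≠ e := by
  classical
  unfold DD
  simp

/-- conditions on the data -/
structure Cond {n k2 d : ℕ} (h M : ℕ) (g : Fin k2 → Fin d → Fin n × Fin n) : Prop where
  ix : ∀ i, Function.Injective (fun a => (g i a).1)
  iy : ∀ i, Function.Injective (fun a => (g i a).2)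
  mv : ∀ i, h < 2 * ({a | (g i a).1 ≠ (g i a).2} : Set (Fin d)).ncard
  ov : ∀ i j, i ≠ j →
    ({p | (∃ a, (g i a).1 = p) ∧ ∃ b, (g j b).1 = p} : Set (Fin n)).ncard ≤ M

theorem DD_lower {n k2 d h M k0 : ℕ} (g : Fin k2 → Fin d → Fin n × Fin n) (hC : Cond h M g)
    (hk : k2 ≤ k0) (hd : 8 ≤ d) (hM : 4 * k0 * M ^ 2 ≤ h * d) :
    k2 * h * d ≤ 16 * (DD g).card := by
  classical
  -- ordered pairs for every `i`
  set O : Fin k2 → Finset (Fin d × Fin d) := fun i => univ.filter (fun p : Fin d × Fin d =>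
      p.1 ≠ p.2 ∧ s((g i p.1).2, (g i p.2).2) ≠ s((g i p.1).1, (g i p.2).1)) with hO
  set B : Fin k2 → Finset (Fin n × Fin n) := fun i =>
    (O i).image (fun p => ((g i p.1).1, (g i p.2).1)) with hB
  have hc : ∀ i, (h + 1) * (d - 2) ≤ 2 * (B i).card := by
    intro i
    have h1 : (B i).card = (O i).card := by
      refine Finset.card_image_of_injective _ ?_
      intro p q hpq
      have h2 := Prod.ext_iff.1 hpq
      exact Prod.ext (hC.ix i h2.1) (hC.ix i h2.2)
    have h3 := hC.mv i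
    have h4 : ({a | (g i a).1 ≠ (g i a).2} : Set (Fin d)).ncard =
        (univ.filter (fun a => (g i a).1 ≠ (g i a).2)).card := by
      rw [← Set.ncard_coe_finset]
      congr 1
      ext a
      simp
    rw [h4] at h3
    have h5 := card_O (fun a => (g i a).1) (fun a => (g i a).2) (hC.ix i) _ le_rfl
    have h6 : (univ.filter (fun a => (g i a).1 ≠ (g i a).2)).card * (d - 2) ≤ (O i).card := h5
    rw [h1]
    calc (h + 1) * (d - 2) ≤ (2 * (univ.filter (fun a => (g i a).1 ≠ (g i a).2)).card) * (d - 2) :=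
          Nat.mul_le_mul_right _ (by omega)
      _ = 2 * ((univ.filter (fun a => (g i a).1 ≠ (g i a).2)).card * (d - 2)) := by ring
      _ ≤ 2 * (O i).card := Nat.mul_le_mul_left _ h6
  have hI : ∀ i j, i ≠ j → (B i ∩ B j).card ≤ M ^ 2 := by
    intro i j hij
    have h1 := hC.ov i j hij
    set R : Finset (Fin n) := univ.filter
      (fun p => (∃ a, (g i a).1 = p) ∧ ∃ b, (g j b).1 = p) with hR
    have h2 : ({p | (∃ a, (g i a).1 = p) ∧ ∃ b, (g j b).1 = p} : Set (Fin n)).ncard = R.card := by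
      rw [← Set.ncard_coe_finset]
      congr 1
      ext a
      simp [hR]
    rw [h2] at h1
    have h3 : B i ∩ B j ⊆ R ×ˢ R := by
      intro p hp
      rw [Finset.mem_inter] at hp
      obtain ⟨u, _, hu⟩ := Finset.mem_image.1 hp.1
      obtain ⟨w, _, hw⟩ := Finset.mem_image.1 hp.2
      have hu2 := Prod.ext_iff.1 hu
      have hw2 := Prod.ext_iff.1 hw
      rw [Finset.mem_product, hR, Finset.mem_filter, Finset.mem_filter]
      exact ⟨⟨Finset.mem_univ _, ⟨u.1, hu2.1⟩, ⟨w.1, hw2.1⟩⟩,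
        ⟨Finset.mem_univ _, ⟨u.2, hu2.2⟩, ⟨w.2, hw2.2⟩⟩⟩
    calc (B i ∩ B j).card ≤ (R ×ˢ R).card := Finset.card_le_card h3
      _ = R.card * R.card := Finset.card_product _ _
      _ ≤ M * M := Nat.mul_le_mul h1 h1
      _ = M ^ 2 := by ring
  set c : ℕ := ((h + 1) * (d - 2) + 1) / 2 with hcdef
  have hc1 : ∀ i, c ≤ (B i).card := by
    intro i
    have := hc i
    omega
  have hc2 : (h + 1) * (d - 2) ≤ 2 * c := by omega
  have hU := biUnion_lower B c (M ^ 2) hc1 hI univ
  rw [Finset.card_univ, Fintype.card_fin] at hU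
  have hD : (univ.biUnion B).card ≤ 2 * (DD g).card := by
    refine card_sym _ _ ?_
    intro p hp
    obtain ⟨i, _, hi⟩ := Finset.mem_biUnion.1 hp
    obtain ⟨u, hu, hu2⟩ := Finset.mem_image.1 hi
    rw [hO, Finset.mem_filter] at hu
    have hu3 := Prod.ext_iff.1 hu2
    rw [mem_DD]
    refine ⟨(i, u.1, u.2), hu.2.1, ?_, ?_⟩
    · rw [← hu3.1, ← hu3.2]
    · rw [← hu3.1, ← hu3.2]
      exact hu.2.2
  -- arithmetic
  obtain ⟨d', rfl⟩ : ∃ d', d = d' + 8 := ⟨d - 8, by omega⟩
  have e1 : d' + 8 - 2 = d' + 6 := by omega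
  rw [e1] at hc2
  have a1 : k2 * ((h + 1) * (d' + 6)) ≤ k2 * (2 * c) := Nat.mul_le_mul_left _ hc2
  have a2 : 4 * (k2 * (k2 * M ^ 2)) ≤ k2 * (h * (d' + 8)) := by
    calc 4 * (k2 * (k2 * M ^ 2)) ≤ 4 * (k2 * (k0 * M ^ 2)) := by gcongr
      _ = k2 * (4 * k0 * M ^ 2) := by ring
      _ ≤ k2 * (h * (d' + 8)) := Nat.mul_le_mul_left _ hM
  have a3 : k2 * c ≤ 2 * (DD g).card + k2 * (k2 * M ^ 2) := by
    calc k2 * c ≤ (univ.biUnion B).card + k2 ^ 2 * M ^ 2 := hU
      _ ≤ 2 * (DD g).card + k2 ^ 2 * M ^ 2 := by omega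
      _ = _ := by ring
  nlinarith [Nat.zero_le (k2 * h), Nat.zero_le (k2 * h * d'), Nat.zero_le (k2 * d'),
    Nat.zero_le k2]

end Pool.Agent.K1H19.SQ
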