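import Pool.Agent.K1H19.SQ.QeA

set_option autoImplicit false

namespace Pool.Agent.K1H19.SQ

open Finset Pool.Agent.K1H35.SH

/-- the event -/
def Ev {n k2 d K : ℕ} (g : Fin k2 → Fin d → Fin n × Fin n) (δ : Fin K → Fin n × Fin n)
    (G : SimpleGraph (Fin n)) : Prop :=
  ∀ i a b, a ≠ b → (G.Adj (g i a).1 (g i b).1 ↔ Xor (G.Adj (g i a).2 (g i b).2)
    (∃ j, s((δ j).1, (δ j).2) = s((g i a).2, (g i b).2)))

theorem E2_univ {n d : ℕ} {G : SimpleGraph (Fin n)} (hG : G ∈ reg n d) : E2 G univ = n * d := by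
  classical
  unfold E2
  rw [mem_reg] at hG
  have h1 : (univ.filter (fun p : Fin n × Fin n => p.1 ∈ univ ∧ p.2 ∈ univ ∧ G.Adj p.1 p.2)).card =
      ∑ a : Fin n, (nb G a).card := by
    rw [Finset.card_filter, ← Finset.univ_product_univ, Finset.sum_product]
    refine Finset.sum_congr rfl ?_
    intro a _
    unfold nb
    rw [Finset.card_filter]
    refine Finset.sum_congr rfl ?_
    intro b _
    simp
  rw [h1, Finset.sum_congr rfl (fun a _ => hG a)]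
  simp

theorem cnt_mono {n d : ℕ} {P Q : SimpleGraph (Fin n) → Prop}
    (h : ∀ G ∈ reg n d, P G → Q G) : cnt n d P ≤ cnt n d Q := by
  classical
  unfold cnt
  refine Finset.card_le_card ?_
  intro G hG
  rw [Finset.mem_filter] at hG ⊢
  exact ⟨hG.1, h G hG.1 hG.2⟩

/-- use of LCC with a general set `U` -/
theorem use (hL : S_LCC) {n d h M k0 k k2 K L : ℕ} (g : Fin k2 → Fin d → Fin n × Fin n)
    (δ : Fin K → Fin n × Fin n) (hC : Cond h M g) (hk : k2 ≤ k0) (hkk : k2 ≤ k) (hk1 : 1 ≤ k)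
    (hd : 64 ≤ d) (hdn : 64 * d ≤ n)
    (hM : 4 * k0 * M ^ 2 ≤ h * d) (hL1 : 1 ≤ L)
    (hbig : 2 ^ 15 * L * n * k ≤ k2 * h * d)
    (U : Finset (Fin n)) (hU : ∀ i a, (g i a).1 ∈ U ∧ (g i a).2 ∈ U) (hU2 : 2 ≤ U.card)
    (hUL : U.card ^ (U.card + 4) ≤ 2 ^ (L * (16 * d * k + 4)))
    (m : ℕ) (hm : d * U.card ^ 2 ≤ 10 * n * m)
    (hE : ∀ G ∈ reg n d, QL d G → m ≤ E2 G U ∧ 2 * E2 G U ≤ U.card * (U.card - 1)) :
    cnt n d (fun G => QL d G ∧ Ev g δ G) * 2 ^ (3 * L + 8 * L * d * k) ≤ (reg n d).card := by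
  classical
  -- the data of LCC
  let W : Sym2 (Fin n) → Prop := fun e => ∃ p : Fin k2 × Fin d × Fin d, p.2.1 ≠ p.2.2 ∧
    e = s((g p.1 p.2.1).1, (g p.1 p.2.2).1) ∧ s((g p.1 p.2.1).2, (g p.1 p.2.2).2) ≠ e
  let τ : Sym2 (Fin n) → Sym2 (Fin n) := fun e =>
    if he : W e then s((g he.choose.1 he.choose.2.1).2, (g he.choose.1 he.choose.2.2).2) else e
  let σ : Sym2 (Fin n) → Prop := fun e => ∃ j, s((δ j).1, (δ j).2) = τ e
  have hDU : DD g ⊆ prs U := by
    intro e he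
    rw [mem_DD] at he
    obtain ⟨p, h1, h2, _⟩ := he
    unfold prs
    rw [Finset.mem_filter]
    refine ⟨Finset.mem_univ _, ?_, ?_⟩
    · rw [h2, Sym2.mk_isDiag_iff]
      intro h3
      exact h1 (hC.ix p.1 h3)
    · intro x hx
      rw [h2, Sym2.mem_iff] at hx
      rcases hx with rfl | rfl
      · exact (hU _ _).1
      · exact (hU _ _).1
  have hτ : ∀ e ∈ DD g, τ e ≠ e ∧ ∀ x ∈ τ e, x ∈ U := by
    intro e he
    rw [mem_DD] at he
    have hW : W e := he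
    have h1 : τ e = s((g hW.choose.1 hW.choose.2.1).2, (g hW.choose.1 hW.choose.2.2).2) := by
      simp only [τ]
      rw [dif_pos hW]
    have h2 := hW.choose_spec
    rw [h1]
    refine ⟨h2.2.2, ?_⟩
    intro x hx
    rw [Sym2.mem_iff] at hx
    rcases hx with rfl | rfl
    · exact (hU _ _).2
    · exact (hU _ _).2
  have hD := DD_lower g hC hk (by omega) hM
  have hr : 4 * (2 ^ 9 * L * n * k) ≤ (DD g).card := by
    have h1 : 16 * (4 * (2 ^ 9 * L * n * k)) = 2 ^ 15 * L * n * k := by ring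
    omega
  have hmain := hL n d U (DD g) τ σ (2 ^ 9 * L * n * k) m hU2 hDU hτ hr
  -- the event implies `Sat`
  have hsat : ∀ G, Ev g δ G → Sat G (DD g) τ σ := by
    intro G hG e he
    rw [mem_DD] at he
    have hW : W e := he
    have h1 : τ e = s((g hW.choose.1 hW.choose.2.1).2, (g hW.choose.1 hW.choose.2.2).2) := by
      simp only [τ]
      rw [dif_pos hW]
    have h2 := hW.choose_spec
    have h3 := hG hW.choose.1 hW.choose.2.1 hW.choose.2.2 h2.1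
    have h4 : σ e ↔ ∃ j, s((δ j).1, (δ j).2) =
        s((g hW.choose.1 hW.choose.2.1).2, (g hW.choose.1 hW.choose.2.2).2) := by
      simp only [σ]
      rw [h1]
    rw [h4, h1, SimpleGraph.mem_edgeSet]
    have h5 : e ∈ G.edgeSet ↔ G.Adj (g hW.choose.1 hW.choose.2.1).1
        (g hW.choose.1 hW.choose.2.2).1 := by
      rw [← SimpleGraph.mem_edgeSet, ← h2.2.1]
    rw [h5]
    exact h3
  have hcnt : cnt n d (fun G => QL d G ∧ Ev g δ G) ≤
      cnt n d (fun G => m ≤ E2 G U ∧ 2 * E2 G U ≤ U.card * (U.card - 1) ∧ Sat G (DD g) τ σ) := by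
    refine cnt_mono ?_
    intro G hG hP
    have h1 := hE G hG hP.1
    exact ⟨h1.1, h1.2, hsat G hP.2⟩
  -- arithmetic
  set u : ℕ := U.card with hu
  have hn : 0 < n := by omega
  have hu0 : (0 : ℝ) < (u : ℝ) ^ 2 := by
    have : (0 : ℝ) < (u : ℝ) := by
      have : 0 < u := by omega
      exact_mod_cast this
    positivity
  set y : ℝ := (m : ℝ) / (u : ℝ) ^ 2 with hy
  have hy1 : (d : ℝ) ≤ 10 * (n : ℝ) * y := by
    rw [hy, ← mul_div_assoc, le_div_iff₀ hu0]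
    exact_mod_cast hm
  have hy0 : 0 ≤ y := by rw [hy]; positivity
  set q : ℕ := 10 * n / d + 1 with hq
  have hq1 : 10 * n ≤ q * d := by
    have h1 := Nat.div_add_mod (10 * n) d
    have h2 := Nat.mod_lt (10 * n) (show 0 < d by omega)
    have h3 : q * d = d * (10 * n / d) + d := by rw [hq]; ring
    omega
  have hq2 : q * d ≤ 11 * n := by
    have h1 := Nat.div_mul_le_self (10 * n) d
    have h3 : q * d = 10 * n / d * d + d := by rw [hq]; ring
    omega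
  have hqy : (2 : ℝ) ≤ (1 + y) ^ q := by
    have h1 := one_add_mul_le_pow (show (-2 : ℝ) ≤ y by linarith) q
    have h2 : (1 : ℝ) ≤ (q : ℝ) * y := by
      have h3 : (10 * (n : ℝ)) ≤ (q : ℝ) * (d : ℝ) := by exact_mod_cast hq1
      have h4 : (q : ℝ) * (d : ℝ) ≤ (q : ℝ) * (10 * (n : ℝ) * y) :=
        mul_le_mul_of_nonneg_left hy1 (Nat.cast_nonneg _)
      have hn' : (0 : ℝ) < 10 * (n : ℝ) := by
        have : (0 : ℝ) < (n : ℝ) := by exact_mod_cast hn
        linarith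
      have h5 : 10 * (n : ℝ) * 1 ≤ 10 * (n : ℝ) * ((q : ℝ) * y) := by nlinarith
      exact le_of_mul_le_mul_left h5 hn'
    linarith
  set N1 : ℕ := L * (16 * d * k + 4) + (3 * L + 8 * L * d * k) with hN1
  have hr2 : q * N1 ≤ 2 ^ 9 * L * n * k := by
    have h1 : N1 ≤ 25 * L * d * k := by
      have h2 : N1 = 24 * (L * d * k) + 7 * L := by rw [hN1]; ring
      have h3 : 7 * L ≤ L * d * k := by
        calc 7 * L ≤ L * 64 * 1 := by omega
          _ ≤ L * d * k := by gcongr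
      have h4 : 25 * L * d * k = 25 * (L * d * k) := by ring
      omega
    calc q * N1 ≤ q * (25 * L * d * k) := Nat.mul_le_mul_left _ h1
      _ = (q * d) * (25 * L * k) := by ring
      _ ≤ (11 * n) * (25 * L * k) := Nat.mul_le_mul_right _ hq2
      _ = 275 * (L * n * k) := by ring
      _ ≤ 512 * (L * n * k) := by gcongr; norm_num
      _ = 2 ^ 9 * L * n * k := by ring
  have hpow : (2 : ℝ) ^ N1 ≤ (1 + y) ^ (2 ^ 9 * L * n * k) := by
    calc (2 : ℝ) ^ N1 ≤ ((1 + y) ^ q) ^ N1 := by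
          exact pow_le_pow_left₀ (by norm_num) hqy N1
      _ = (1 + y) ^ (q * N1) := by rw [← pow_mul]
      _ ≤ (1 + y) ^ (2 ^ 9 * L * n * k) := pow_le_pow_right₀ (by linarith) hr2
  have hc0 : (0 : ℝ) ≤ (cnt n d (fun G => m ≤ E2 G U ∧ 2 * E2 G U ≤ u * (u - 1) ∧
      Sat G (DD g) τ σ) : ℝ) := Nat.cast_nonneg _
  have hfin : (cnt n d (fun G => m ≤ E2 G U ∧ 2 * E2 G U ≤ u * (u - 1) ∧
      Sat G (DD g) τ σ) : ℝ) * 2 ^ N1 ≤ (2 : ℝ) ^ (L * (16 * d * k + 4)) * ((reg n d).card : ℝ) := by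
    calc _ ≤ (cnt n d (fun G => m ≤ E2 G U ∧ 2 * E2 G U ≤ u * (u - 1) ∧
      Sat G (DD g) τ σ) : ℝ) * (1 + y) ^ (2 ^ 9 * L * n * k) :=
          mul_le_mul_of_nonneg_left hpow hc0
      _ ≤ (u : ℝ) ^ (u + 4) * ((reg n d).card : ℝ) := hmain
      _ ≤ _ := by
        refine mul_le_mul_of_nonneg_right ?_ (Nat.cast_nonneg _)
        exact_mod_cast hUL
  have hfinN : cnt n d (fun G => m ≤ E2 G U ∧ 2 * E2 G U ≤ u * (u - 1) ∧
      Sat G (DD g) τ σ) * 2 ^ N1 ≤ 2 ^ (L * (16 * d * k + 4)) * (reg n d).card := by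
    exact_mod_cast hfin
  rw [hN1, pow_add] at hfinN
  have hfin2 : 2 ^ (L * (16 * d * k + 4)) * (cnt n d (fun G => m ≤ E2 G U ∧
      2 * E2 G U ≤ u * (u - 1) ∧ Sat G (DD g) τ σ) * 2 ^ (3 * L + 8 * L * d * k)) ≤
      2 ^ (L * (16 * d * k + 4)) * (reg n d).card := by
    calc _ = cnt n d (fun G => m ≤ E2 G U ∧ 2 * E2 G U ≤ u * (u - 1) ∧
      Sat G (DD g) τ σ) * (2 ^ (L * (16 * d * k + 4)) * 2 ^ (3 * L + 8 * L * d * k)) := by ring
      _ ≤ _ := hfinN
  have hfin3 := Nat.le_of_mul_le_mul_left hfin2 (by positivity)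
  exact (Nat.mul_le_mul_right _ hcnt).trans hfin3

end Pool.Agent.K1H19.SQ
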